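import Pool.Agent.H45.Lib.S8.Y682.XT.Stm
import Pool.Agent.H45.Lib.S8.H316R2.C1
import Pool.Agent.H45.Lib.S8.H385R2.Gauss

set_option autoImplicit false

open Finset Filter Topology DirichletCharacter

namespace Pool.Agent.Y41.XT

open Pool.Agent.Y682.XT

lemma std_val {f : ℕ} [NeZero f] (u : ZMod f) :
    (ZMod.stdAddChar u : ℂ) = Complex.exp (2 * Real.pi * Complex.I * (u.val : ℂ) / f) := by
  have h := ZMod.stdAddChar_coe (N := f) (u.val : ℤ)
  have h2 : (((u.val : ℤ)) : ZMod f) = u := by simp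
  rw [h2] at h
  rw [h]
  push_cast
  rfl

lemma std_norm {f : ℕ} [NeZero f] (u : ZMod f) : ‖(ZMod.stdAddChar u : ℂ)‖ = 1 := by
  rw [ZMod.stdAddChar_apply]
  exact Circle.norm_coe _

lemma std_mul_nat {f : ℕ} [NeZero f] (u : ZMod f) (n : ℕ) :
    (ZMod.stdAddChar ((n : ZMod f) * u) : ℂ) = (ZMod.stdAddChar u) ^ n := by
  rw [← nsmul_eq_mul, AddChar.map_nsmul_eq_pow]

/-- the Fourier expansion of a primitive character -/
lemma chi_gauss {f : ℕ} [NeZero f] {χ : DirichletCharacter ℂ f} (hχ : χ.IsPrimitive) (n : ℕ) :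
    χ (n : ZMod f) * gaussSum χ⁻¹ (ZMod.stdAddChar (N := f)) =
      ∑ u : ZMod f, χ⁻¹ u * (ZMod.stdAddChar u : ℂ) ^ n := by
  have hinv : (χ⁻¹).IsPrimitive := by
    rw [DirichletCharacter.isPrimitive_def] at hχ ⊢
    rw [DirichletCharacter.conductor_inv]
    exact hχ
  have h := gaussSum_mulShift_of_isPrimitive (e := ZMod.stdAddChar (N := f)) hinv (n : ZMod f)
  rw [inv_inv] at h
  rw [← h]
  unfold gaussSum
  refine sum_congr rfl fun u _ => ?_
  rw [AddChar.mulShift_apply, std_mul_nat]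

lemma series {f : ℕ} [NeZero f] {χ : DirichletCharacter ℂ f} (hχ : χ.IsPrimitive) {x : ℝ}
    (hx0 : 0 < x) (hx1 : x < 1) :
    (∑' n : ℕ, (χ (n : ZMod f) * (((1:ℝ) / n : ℝ) : ℂ)) * (x : ℂ) ^ n) *
        gaussSum χ⁻¹ (ZMod.stdAddChar (N := f)) =
      -∑ u : ZMod f, χ⁻¹ u * Complex.log (1 - (x : ℂ) * ZMod.stdAddChar u) := by
  have h1 : ∀ u : ZMod f, HasSum (fun n : ℕ => χ⁻¹ u * (((x : ℂ) * ZMod.stdAddChar u) ^ n / n))
      (χ⁻¹ u * (-Complex.log (1 - (x : ℂ) * ZMod.stdAddChar u))) := by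
    intro u
    apply HasSum.mul_left
    apply Complex.hasSum_taylorSeries_neg_log
    rw [norm_mul, std_norm, mul_one, Complex.norm_real, Real.norm_eq_abs, abs_of_pos hx0]
    exact hx1
  have h2 := hasSum_sum (s := (univ : Finset (ZMod f))) fun u _ => h1 u
  rw [← tsum_mul_right]
  rw [show -∑ u : ZMod f, χ⁻¹ u * Complex.log (1 - (x : ℂ) * ZMod.stdAddChar u) =
    ∑ u : ZMod f, χ⁻¹ u * (-Complex.log (1 - (x : ℂ) * ZMod.stdAddChar u)) by
      rw [← sum_neg_distrib]; refine sum_congr rfl fun u _ => by ring]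
  rw [← h2.tsum_eq]
  refine tsum_congr fun n => ?_
  have h3 := chi_gauss hχ n
  calc _ = (χ (n : ZMod f) * gaussSum χ⁻¹ (ZMod.stdAddChar (N := f))) *
        ((((1:ℝ) / n : ℝ) : ℂ) * (x : ℂ) ^ n) := by ring
    _ = _ := by
      rw [h3, sum_mul]
      refine sum_congr rfl fun u _ => ?_
      push_cast
      rw [mul_pow]
      ring

lemma std_ne_one {f : ℕ} [NeZero f] {u : ZMod f} (hu : u ≠ 0) : (ZMod.stdAddChar u : ℂ) ≠ 1 := by
  intro h
  apply hu
  apply ZMod.injective_stdAddChar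
  rw [h, AddChar.map_zero_eq_one]

lemma slit {z : ℂ} (hz : ‖z‖ = 1) (h1 : z ≠ 1) : 1 - z ∈ Complex.slitPlane := by
  left
  have h2 : z.re ≤ 1 := by rw [← hz]; exact Complex.re_le_norm z
  rcases h2.lt_or_eq with h3 | h3
  · simp; linarith
  · exfalso
    apply h1
    have h4 : ‖z‖ ^ 2 = 1 := by rw [hz]; norm_num
    rw [← Complex.normSq_eq_norm_sq, Complex.normSq_apply, h3] at h4
    apply Complex.ext
    · simpa using h3
    · simp
      nlinarith

lemma chi_zero {f : ℕ} [NeZero f] {χ : DirichletCharacter ℂ f} (h : χ ≠ 1) : χ (0 : ZMod f) = 0 := by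
  by_contra h0
  have hu : IsUnit (0 : ZMod f) := by
    by_contra hn
    exact h0 (χ.map_nonunit hn)
  rw [isUnit_zero_iff] at hu
  have : Subsingleton (ZMod f) := subsingleton_of_zero_eq_one hu
  apply h
  ext a
  have : (a : ZMod f) = 1 := Subsingleton.elim _ _
  rw [this, map_one, map_one]

lemma limit {f : ℕ} [NeZero f] {χ : DirichletCharacter ℂ f} (hχ : χ.IsPrimitive) (hne : χ ≠ 1) :
    LFunction χ 1 * gaussSum χ⁻¹ (ZMod.stdAddChar (N := f)) =
      -∑ u : ZMod f, χ⁻¹ u * Complex.log (1 - ZMod.stdAddChar u) := by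
  have hpart : Tendsto (fun n : ℕ => ∑ i ∈ range n, χ (i : ZMod f) * (((1:ℝ) / i : ℝ) : ℂ)) atTop
      (𝓝 (LFunction χ 1)) := by
    rw [← tendsto_add_atTop_iff_nat 1]
    rw [tendsto_iff_norm_sub_tendsto_zero]
    have hb : Tendsto (fun N : ℕ => 2 * (f : ℝ) / N) atTop (𝓝 0) :=
      tendsto_const_div_atTop_nhds_zero_nat _
    refine squeeze_zero' (Eventually.of_forall fun _ => norm_nonneg _) ?_ hb
    filter_upwards [eventually_ge_atTop 1] with N hN
    have h := Pool.Agent.H316R2.tail_one χ hne N hN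
    refine le_trans (le_of_eq ?_) h
    congr 2
    have : range (N + 1) = insert 0 (Icc 1 N) := by
      ext a; simp only [mem_range, mem_insert, mem_Icc]; omega
    rw [this, sum_insert (by simp)]
    simp
  have hA := Complex.tendsto_tsum_powerSeries_nhdsWithin_lt hpart
  rw [tendsto_map'_iff] at hA
  have hL : Tendsto (fun x : ℝ => (∑' n : ℕ, (χ (n : ZMod f) * (((1:ℝ) / n : ℝ) : ℂ)) * (x : ℂ) ^ n) *
      gaussSum χ⁻¹ (ZMod.stdAddChar (N := f))) (𝓝[<] 1)
      (𝓝 (LFunction χ 1 * gaussSum χ⁻¹ (ZMod.stdAddChar (N := f)))) := hA.mul_const _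
  have hR : Tendsto (fun x : ℝ => -∑ u : ZMod f, χ⁻¹ u *
      Complex.log (1 - (x : ℂ) * ZMod.stdAddChar u)) (𝓝[<] 1)
      (𝓝 (-∑ u : ZMod f, χ⁻¹ u * Complex.log (1 - ZMod.stdAddChar u))) := by
    apply Tendsto.neg
    apply tendsto_finsetSum
    intro u _
    by_cases hu : u = 0
    · subst hu
      have h0 : (χ⁻¹ : DirichletCharacter ℂ f) (0 : ZMod f) = 0 :=
        chi_zero (by simpa using hne)
      simp only [h0, zero_mul]
      exact tendsto_const_nhds
    · apply Tendsto.const_mul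
      have hs := slit (std_norm u) (std_ne_one hu)
      have hc : ContinuousAt (fun x : ℝ => Complex.log (1 - (x : ℂ) * ZMod.stdAddChar u)) 1 := by
        apply ContinuousAt.clog
        · fun_prop
        · simpa using hs
      have := hc.tendsto.mono_left (nhdsWithin_le_nhds (s := Set.Iio 1))
      simpa using this
  refine tendsto_nhds_unique hL (hR.congr' ?_)
  have h01 : ∀ᶠ x : ℝ in 𝓝[<] 1, x ∈ Set.Ioo (0:ℝ) 1 :=
    Ioo_mem_nhdsLT (by norm_num)
  filter_upwards [h01] with x hx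
  exact (series hχ hx.1 hx.2).symm

theorem s_l1 : S_L1 := by
  intro f _ χ hχ hne heven
  have h1 := limit hχ hne
  -- the even symmetrisation
  have hinvneg : (χ⁻¹ : DirichletCharacter ℂ f) (-1) = 1 := by
    rw [MulChar.inv_apply_eq_inv', heven, inv_one]
  have h2 : ∑ u : ZMod f, χ⁻¹ u * Complex.log (1 - ZMod.stdAddChar u) =
      ∑ u : ZMod f, χ⁻¹ u * (starRingEnd ℂ) (Complex.log (1 - ZMod.stdAddChar u)) := by
    rw [← Equiv.sum_comp (Equiv.neg (ZMod f))]
    refine sum_congr rfl fun u _ => ?_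
    have e1 : (χ⁻¹ : DirichletCharacter ℂ f) (-u) = χ⁻¹ u := by
      rw [← neg_one_mul, map_mul, hinvneg, one_mul]
    simp only [Equiv.neg_apply]
    rw [e1]
    by_cases hu : u = 0
    · subst hu
      rw [chi_zero (by simpa using hne)]
      simp
    · congr 1
      have hs := slit (std_norm u) (std_ne_one hu)
      rw [← Complex.log_conj _ (Complex.mem_slitPlane_iff_arg.mp hs).1]
      congr 1
      rw [map_sub, map_one, AddChar.map_neg_eq_inv]
      congr 1
      rw [Complex.inv_def, Complex.normSq_eq_norm_sq, std_norm]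
      simp
  have h3 : ∑ u : ZMod f, χ⁻¹ u * Complex.log (1 - ZMod.stdAddChar u) =
      ∑ u : ZMod f, χ⁻¹ u * (lg f u : ℂ) := by
    have h4 : 2 * ∑ u : ZMod f, χ⁻¹ u * Complex.log (1 - ZMod.stdAddChar u) =
        2 * ∑ u : ZMod f, χ⁻¹ u * (lg f u : ℂ) := by
      rw [two_mul]
      nth_rewrite 2 [h2]
      rw [← sum_add_distrib, mul_sum]
      refine sum_congr rfl fun u _ => ?_
      rw [← mul_add, Complex.add_conj, Complex.log_re, std_val]
      unfold lg
      push_cast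
      ring
    exact mul_left_cancel₀ two_ne_zero h4
  have h5 : ∑ u : ZMod f, χ⁻¹ u * (lg f u : ℂ) =
      (starRingEnd ℂ) (∑ u : ZMod f, χ u * (lg f u : ℂ)) := by
    rw [map_sum]
    refine sum_congr rfl fun u _ => ?_
    rw [map_mul, Complex.conj_ofReal]
    congr 1
    rw [MulChar.inv_apply_eq_inv']
    by_cases hu : IsUnit u
    · rw [Complex.inv_def, Complex.normSq_eq_norm_sq]
      have := DirichletCharacter.unit_norm_eq_one χ hu.unit
      rw [IsUnit.unit_spec] at this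
      rw [this]
      simp
    · rw [χ.map_nonunit hu]
      simp
  have h6 : ∑ u : ZMod f, χ u * (lg f u : ℂ) = ∑ u : (ZMod f)ˣ, χ (u : ZMod f) * (lg f (u : ZMod f) : ℂ) := by
    symm
    rw [← sum_subset (subset_univ ((univ : Finset (ZMod f)ˣ).map ⟨Units.val, Units.val_injective⟩))]
    · rw [sum_map]
      rfl
    · intro u _ hu
      rw [χ.map_nonunit, zero_mul]
      intro h
      apply hu
      rw [Finset.mem_map]
      exact ⟨h.unit, mem_univ _, rfl⟩
  have h7 : ‖gaussSum χ⁻¹ (ZMod.stdAddChar (N := f))‖ = Real.sqrt f := by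
    have hinv : (χ⁻¹).IsPrimitive := by
      rw [DirichletCharacter.isPrimitive_def] at hχ ⊢
      rw [DirichletCharacter.conductor_inv]
      exact hχ
    have h8 := H385.GaussAux.norm_sq_gaussSum hinv
    rw [← h8, Real.sqrt_sq (norm_nonneg _)]
  rw [← h7, ← norm_mul, h1, norm_neg, h3, h5, RCLike.norm_conj, h6]

end Pool.Agent.Y41.XT
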